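import Mathlib
import Pool.Agent.W961.CryptoDefs
import Pool.Agent.W961.PkeSec

/-!
Unconditional public-key encryption in the world of circuits of constant depth.

The public key is a matrix over the field with two elements, whose rows and columns are indexed by
`m` blocks of `2 ^ ℓ` points each; it is uniformly random except that one random column of each
block (the secret key lists these columns) is chosen, and these `m` columns sum to zero. A
ciphertext is the sum of one random row of each block, plus the message on the columns of one
block; its entries at the secret columns sum to the message. The number `m` of blocks tends to
infinity with the security parameter, but so slowly that all algorithms are in AC⁰.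
-/

namespace Pool.Agent.Results.MP_5f4f03_lc.PublicKeyAC0

/-- There is a public-key encryption scheme, all of whose algorithms are in AC⁰, without
decryption errors, such that every circuit of constant depth and polynomial size has a negligible
advantage in telling the encryptions of the two bits apart, given the public key. -/
theorem result : ∃ S : AC0World.PKE, S.Efficient ∧ S.Correct ∧ S.Secure :=
  ⟨Pool.Agent.W961.scheme, Pool.Agent.W961.scheme_efficient, Pool.Agent.W961.scheme_correct,
    Pool.Agent.W961.scheme_secure⟩

end Pool.Agent.Results.MP_5f4f03_lc.PublicKeyAC0
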